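import Mathlib
import Pool.Agent.H.MP_c8e566_gt.A
import Pool.Agent.H.MP_9c4169_gt.A

set_option autoImplicit false

namespace Pool.Agent.H.MP_f722f0_gt

open Set Filter Topology Cardinal MeasureTheory Pool.Agent.H.MP_55e6a3_gt
  Pool.Agent.H.MP_c8e566_gt Pool.Agent.H.MP_9c4169_gt

structure Tw (T : Set C) : Prop where
  inf : ∀ t ∈ T, ∀ m, ∃ i ≥ m, t i = true
  ch : ∀ s ∈ T, ∀ t ∈ T, (∀ᶠ i in atTop, s i = true → t i = true) ∨
    ∀ᶠ i in atTop, t i = true → s i = true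
  ul : ∀ A : Set ℕ, ∃ t ∈ T, (∀ i, t i = true → i ∈ A) ∨ ∀ i, t i = true → i ∉ A
  sp : ∀ f : ℕ → ℕ, ∃ t ∈ T, ∀ i j, i < j → t i = true → t j = true → f i ≤ j
  md : ∀ t ∈ T, E t ⊆ T

theorem tower (ch : continuum = (aleph 1 : Cardinal.{0})) : ∃ T, Tw T := by
  classical
  obtain ⟨e⟩ : Nonempty (I ≃ Set ℕ × (ℕ → ℕ)) := by
    rw [← Cardinal.eq, mkI, ← ch]; simp
  have h1 : ∀ (α : I) (r : Iio α → Sv), ∃ Q, ((∀ β γ, β < γ → les (r γ) (r β)) →
      ∀ β, les Q (r β)) ∧ Sp (e α).2 Q ∧ (Q.B ⊆ (e α).1 ∨ Q.B ⊆ (e α).1ᶜ) := fun α r => by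
    obtain ⟨Q, hQ⟩ : ∃ Q, (∀ β γ, β < γ → les (r γ) (r β)) → ∀ β, les Q (r β) := by
      by_cases h : ∀ β γ, β < γ → les (r γ) (r β)
      · have := (cIio α).to_subtype
        obtain ⟨Q, hQ⟩ := lb r fun β γ => by
          rcases lt_trichotomy β γ with h1 | rfl | h1
          · exact Or.inr (h _ _ h1)
          · exact Or.inl ⟨0, le.rfl⟩
          · exact Or.inl (h _ _ h1)
        exact ⟨Q, fun _ => hQ⟩
      · exact ⟨⟨fun _ => false, Set.univ, infinite_univ⟩, fun h' => (h h').elim⟩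
    obtain ⟨A, a1, a2⟩ : ∃ A, (Q.B ∩ A).Infinite ∧ (A = (e α).1 ∨ A = (e α).1ᶜ) := by
      have := Q.h
      rw [← inter_union_compl Q.B (e α).1, infinite_union] at this
      exact this.elim (fun h => ⟨_, h, Or.inl rfl⟩) fun h => ⟨_, h, Or.inr rfl⟩
    obtain ⟨R, r1, r2⟩ := sparse (e α).2 ⟨Q.a, _, a1⟩
    have r3 : R.B ⊆ A := fun i hi => ((r1 i (Nat.zero_le _)).1 hi).2
    exact ⟨R, fun h β => les.trans ⟨0, r1.trans fun i _ => ⟨fun h => h.1, fun _ => rfl⟩⟩ (hQ h β),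
      r2, a2.imp r3.trans_eq r3.trans_eq⟩
  choose F F1 F2 F3 using h1
  obtain ⟨c, hc⟩ : ∃ c : I → Sv, ∀ α, c α = F α fun β => c β :=
    ⟨wellFounded_lt.fix fun α r => F α fun β => r β β.2, fun α => wellFounded_lt.fix_eq _ α⟩
  have k1 : ∀ α β, β < α → les (c α) (c β) := by
    intro α
    induction α using WellFoundedLT.induction with
    | ind α ih =>
      intro β hβ
      rw [hc α]
      exact F1 α (fun γ => c γ) (fun β γ h => ih γ γ.2 β h) ⟨β, hβ⟩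
  let χ : I → C := fun α i => decide (i ∈ (c α).B)
  have k2 : ∀ α β, β ≤ α → ∀ s ∈ E (χ α), ∀ t ∈ E (χ β), ∀ᶠ i in atTop, s i = true → t i = true := by
    rintro α β h s ⟨m, hm⟩ t ⟨k, hk⟩
    obtain ⟨l, hl⟩ : les (c α) (c β) := h.eq_or_lt.elim (fun h => h ▸ ⟨0, le.rfl⟩) (k1 α β)
    filter_upwards [eventually_ge_atTop m, eventually_ge_atTop k, eventually_ge_atTop l]
      with i h1 h2 h3
    simpa [hm i h1, hk i h2, χ] using (hl i h3).1
  have k3 : ∀ α, χ α ∈ ⋃ α, E (χ α) := fun α => mem_iUnion.2 ⟨α, 0, fun _ _ => rfl⟩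
  refine ⟨⋃ α, E (χ α), fun t ht m => ?_, fun s hs t ht => ?_, fun A => ?_, fun f => ?_,
    fun t ht s ⟨k, hk⟩ => ?_⟩
  · obtain ⟨α, k, hk⟩ := mem_iUnion.1 ht
    obtain ⟨i, h1, h2⟩ := (c α).h.exists_gt (max m k)
    exact ⟨i, le_of_max_le_left h2.le, by simpa [hk i (le_of_max_le_right h2.le), χ]⟩
  · obtain ⟨α, hα⟩ := mem_iUnion.1 hs
    obtain ⟨β, hβ⟩ := mem_iUnion.1 ht
    exact (le_total β α).imp (fun h => k2 α β h s hα t hβ) fun h => k2 β α h t hβ s hα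
  · have := F3 (e.symm (A, id)) fun γ => c γ
    rw [← hc, e.apply_symm_apply] at this
    exact ⟨_, k3 (e.symm (A, id)), this.imp (fun h i hi => h (by simpa [χ] using hi))
      fun h i hi => h (by simpa [χ] using hi)⟩
  · have := F2 (e.symm (∅, f)) fun γ => c γ
    rw [← hc, e.apply_symm_apply] at this
    exact ⟨_, k3 (e.symm (∅, f)), fun i j h hi hj =>
      this i (by simpa [χ] using hi) j (by simpa [χ] using hj) h⟩
  · obtain ⟨α, m, hm⟩ := mem_iUnion.1 ht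
    exact mem_iUnion.2 ⟨α, max m k, fun i hi => (hk i (le_of_max_le_right hi)).trans
      (hm i (le_of_max_le_left hi))⟩

theorem emb : ∃ e : C → ℝ, Continuous e ∧ Function.Injective e ∧ (∀ t, 0 < e t) ∧
    volume (range e) = 0 := by
  obtain ⟨e, -, e1, e2⟩ := (isClosed_univ (X := ℝ)).exists_nat_bool_injection_of_not_countable
    Cardinal.not_countable_real
  let f : C → C → ℝ := fun s t => Real.exp (e fun n => if n % 2 = 0 then s (n / 2) else t (n / 2))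
  have f1 : ∀ s, Continuous (f s) := fun s => Real.continuous_exp.comp
    (e1.comp (continuous_pi fun n => by split_ifs <;> fun_prop))
  have f2 : ∀ s t s' t', f s t = f s' t' → s = s' ∧ t = t' := fun s t s' t' h => by
    have h := e2 (Real.exp_injective h)
    refine ⟨funext fun n => by simpa using congrFun h (2 * n), funext fun n => ?_⟩
    have := congrFun h (2 * n + 1)
    rwa [if_neg (by omega), if_neg (by omega), show (2 * n + 1) / 2 = n by omega] at this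
  have h := Measure.countable_meas_pos_of_disjoint_iUnion (μ := volume) (As := fun s => range (f s))
    (fun s => (isCompact_range (f1 s)).measurableSet) fun s s' h => disjoint_left.2
      fun _ ⟨t, ht⟩ ⟨t', ht'⟩ => h (f2 _ _ _ _ (ht.trans ht'.symm)).1
  obtain ⟨s, hs⟩ : ∃ s, s ∉ {s | 0 < volume (range (f s))} := by
    by_contra h1
    push Not at h1
    have : (Set.univ : Set C).Countable := h.mono fun s _ => h1 s
    rw [← le_aleph0_iff_set_countable] at this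
    simp at this
    exact this.not_gt aleph0_lt_continuum
  exact ⟨f s, f1 s, fun t t' h => (f2 _ _ _ _ h).2, fun _ => Real.exp_pos _, by simpa using hs⟩

def Si (Z : Set ℝ) : Prop := (∀ N : Set ℝ, volume N = 0 → (N ∩ Z).Countable) ∧
  ∀ B : Set ℝ, MeasurableSet B → (B ∩ Z).Countable → volume B = 0

theorem sier (ch : continuum = (aleph 1 : Cardinal.{0})) {e : C → ℝ} (e1 : Function.Injective e)
    (e2 : ∀ t, 0 < e t) (e3 : volume (range e) = 0) {T : Set C} (hT : T.Nonempty) :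
    ∃ Z, Si Z ∧ ∀ t, t ∈ T ↔ ∃ p ∈ Z, ∃ q ∈ Z, q - p = e t := by
  obtain ⟨d, hd⟩ : ∃ d : I → {U : Set ℝ | MeasurableSet U} × T, Function.Surjective d := by
    have h1 : #{U : Set ℝ | MeasurableSet U} ≤ continuum := by
      obtain ⟨b, b1, b2⟩ := MeasurableSpace.CountablyGenerated.isCountablyGenerated (α := ℝ)
      have := MeasurableSpace.cardinal_measurableSet_le_continuum
        (b1.le_aleph0.trans aleph0_le_continuum)
      rwa [← b2] at this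
    have : Nonempty {U : Set ℝ | MeasurableSet U} :=
      ⟨⟨∅, (MeasurableSet.empty : MeasurableSet (∅ : Set ℝ))⟩⟩
    have := hT.to_subtype
    obtain ⟨j⟩ : #({U : Set ℝ | MeasurableSet U} × T) ≤ #I := by
      rw [mkI, ← ch]
      simp only [mk_prod, lift_id]
      refine (mul_le_mul' h1 ((mk_set_le _).trans_eq (by simp))).trans continuum_mul_self.le
    exact ⟨_, Function.invFun_surjective j.injective⟩
  let Y : I → ℝ → Set ℝ := fun α x => {x, x + e (d α).2}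
  have h1 : ∀ (α : I) (r : Iio α → ℝ), ∃ x, (volume (d α).1.1 ≠ 0 → x ∈ (d α).1.1) ∧
      ∀ y ∈ Y α x, (∀ β < α, volume (d β).1.1 = 0 → y ∉ (d β).1.1) ∧
        ∀ β : Iio α, ∀ z ∈ Y β (r β), y - z ∉ range e ∧ z - y ∉ range e := fun α r => by
    have := (cIio α).to_subtype
    have k : ∀ᵐ y : ℝ, (∀ β < α, volume (d β).1.1 = 0 → y ∉ (d β).1.1) ∧
        ∀ β : Iio α, ∀ z ∈ Y β (r β), y - z ∉ range e ∧ z - y ∉ range e := by
      refine Eventually.and ((ae_ball_iff (cIio α)).2 fun β _ => ?_) (ae_all_iff.2 fun β =>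
        (ae_ball_iff (toFinite _).countable).2 fun z _ => Eventually.and ?_ ?_)
      · by_cases h : volume (d β).1.1 = 0
        · exact (measure_eq_zero_iff_ae_notMem.1 h).mono fun _ h _ => h
        · simp [h]
      · exact (measurePreserving_sub_right volume z).quasiMeasurePreserving.ae
          (compl_mem_ae_iff.2 e3)
      · exact (Measure.measurePreserving_sub_left volume z).quasiMeasurePreserving.ae
          (compl_mem_ae_iff.2 e3)
    have k2 := k.and ((measurePreserving_add_right volume (e (d α).2)).quasiMeasurePreserving.ae k)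
    by_cases h : volume (d α).1.1 = 0
    · obtain ⟨x, hx⟩ := k2.exists
      exact ⟨x, fun h' => (h' h).elim, forall_mem_insert.2 ⟨hx.1, by simpa using hx.2⟩⟩
    · obtain ⟨x, h2, hx⟩ := Measure.exists_mem_of_measure_ne_zero_of_ae h (ae_restrict_of_ae k2)
      exact ⟨x, fun _ => h2, forall_mem_insert.2 ⟨hx.1, by simpa using hx.2⟩⟩
  choose F F1 F2 using h1
  obtain ⟨c, hc⟩ : ∃ c : I → ℝ, ∀ α, c α = F α fun β => c β :=
    ⟨wellFounded_lt.fix fun α r => F α fun β => r β β.2, fun α => wellFounded_lt.fix_eq _ α⟩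
  have k1 := fun α => hc α ▸ F1 α fun β => c β
  have k2 := fun α => hc α ▸ F2 α fun β => c β
  refine ⟨⋃ α, Y α (c α), ⟨fun N hN => ?_, fun B hB h => ?_⟩, fun t => ⟨fun ht => ?_, ?_⟩⟩
  · obtain ⟨B, b1, b2, b3⟩ := exists_measurable_superset_of_null hN
    obtain ⟨β, hβ⟩ := hd (⟨B, b2⟩, ⟨_, hT.some_mem⟩)
    refine ((cIic β).biUnion fun α _ => (toFinite (Y α (c α))).countable).mono fun y hy => ?_
    obtain ⟨α, hα⟩ := mem_iUnion.1 hy.2
    refine mem_biUnion (not_lt.1 fun h => (k2 α y hα).1 β h ?_ ?_) hα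
    · rwa [hβ]
    · rw [hβ]; exact b1 hy.1
  · by_contra h1
    obtain ⟨β, hβ⟩ := hd (⟨_, hB.diff h.measurableSet⟩, ⟨_, hT.some_mem⟩)
    have h2 := k1 β
    rw [hβ, measure_sdiff_null (h.measure_zero _)] at h2
    exact (h2 h1).2 ⟨(h2 h1).1, mem_iUnion.2 ⟨β, Or.inl rfl⟩⟩
  · obtain ⟨β, hβ⟩ := hd (⟨∅, (MeasurableSet.empty : MeasurableSet (∅ : Set ℝ))⟩, ⟨t, ht⟩)
    exact ⟨_, mem_iUnion.2 ⟨β, Or.inl rfl⟩, _, mem_iUnion.2 ⟨β, Or.inr rfl⟩, by simp [hβ]⟩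
  · rintro ⟨p, hp, q, hq, h⟩
    obtain ⟨α, hα⟩ := mem_iUnion.1 hp
    obtain ⟨β, hβ⟩ := mem_iUnion.1 hq
    rcases lt_trichotomy α β with h1 | rfl | h1
    · exact (((k2 β q hβ).2 ⟨α, h1⟩ p hα).1 ⟨t, h.symm⟩).elim
    · have h2 := e2 t
      have h3 := e2 (d α).2
      rcases hα with rfl | rfl <;> rcases hβ with h4 | h4
      · rw [h4] at h; linarith
      · rw [h4, add_sub_cancel_left] at h
        exact e1 h ▸ (d α).2.2
      · rw [h4] at h; linarith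
      · rw [h4] at h; linarith
    · exact (((k2 α p hα).2 ⟨β, h1⟩ q hβ).2 ⟨t, h.symm⟩).elim

theorem Si.ae {Z : Set ℝ} (h : Si Z) {p : ℝ → Prop} (hp : MeasurableSet {x | p x})
    (h1 : ∀ x ∈ Z, p x) : ∀ᵐ x ∂(volume : Measure ℝ).toFinite, p x := by
  rw [ae_toFinite]
  exact h.2 _ hp.compl (countable_empty.mono fun x hx => hx.1 (h1 x hx.2))

theorem Si.ct {Z : Set ℝ} (h : Si Z) {p : ℝ → Prop}
    (h1 : ∀ᵐ x ∂(volume : Measure ℝ).toFinite, p x) : {x ∈ Z | ¬ p x}.Countable := by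
  rw [ae_toFinite] at h1
  exact (h.1 _ h1).mono fun _ hx => And.intro hx.2 hx.1

theorem Si.gg {Z : Set ℝ} (h : Si Z) : Gg (Bo Z) Set.univ := by
  intro u u1 u2
  have h1 : ∀ n m, ∃ W, MeasurableSet W ∧ Subtype.val ⁻¹' W = u n m := fun n m => by
    have : @MeasurableSet Z (borel Z) (u n m) := u1 n m
    rwa [← BorelSpace.measurable_eq] at this
  choose W w1 w2 using h1
  let μ := (volume : Measure ℝ).toFinite
  have h2 : ∀ n, ∃ k, μ (⋃ m ≥ k, (W n m)ᶜ) < 2⁻¹ ^ n := fun n => by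
    have h3 := tendsto_measure_iInter_atTop (μ := μ) (s := fun k => ⋃ m ≥ k, (W n m)ᶜ)
      (fun k => (MeasurableSet.biUnion (to_countable _) fun m _ => (w1 n m).compl).nullMeasurableSet)
      (fun k l h => biUnion_subset_biUnion_left fun m hm => h.trans hm) ⟨0, measure_ne_top _ _⟩
    have h4 : μ (⋂ k, ⋃ m ≥ k, (W n m)ᶜ) = 0 := compl_mem_ae_iff.1 (h.ae (MeasurableSet.iInter
      fun k => MeasurableSet.biUnion (to_countable _) fun m _ => (w1 n m).compl).compl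
        fun x hx h5 => by
          obtain ⟨k, hk⟩ := eventually_atTop.1 (u2 n ⟨x, hx⟩)
          obtain ⟨m, h6, h7⟩ := mem_iUnion₂.1 (mem_iInter.1 h5 k)
          exact h7 ((w2 n m).ge (hk m h6)))
    rw [h4] at h3
    exact (h3.eventually (gt_mem_nhds (ENNReal.pow_pos (by simp) n))).exists
  choose k hk using h2
  have h3 := h.ct (ae_eventually_notMem (μ := μ) (s := fun n => ⋃ m ≥ k n, (W n m)ᶜ)
    (ne_top_of_le_ne_top (by simp [ENNReal.tsum_geometric])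
      (ENNReal.tsum_le_tsum fun n => (hk n).le)))
  obtain ⟨D, hD⟩ := countable_iff_exists_injOn.1
    (h3.preimage (f := fun z : Z => z.1) Subtype.val_injective)
  have h4 : ∀ n, ∃ m ≥ k n, ∀ z : Z, ¬ (∀ᶠ n in atTop, z.1 ∉ ⋃ m ≥ k n, (W n m)ᶜ) → D z ≤ n →
      z ∈ u n m := fun n => by
    obtain ⟨m, h5, h6⟩ := ((eventually_ge_atTop (k n)).and ((eventually_all_finite
      (Finite.of_finite_image ((finite_Iic n).subset (image_inter_preimage D _ _ ▸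
        inter_subset_right)) (hD.mono inter_subset_left))).2 fun z _ => u2 n z)).exists
    exact ⟨m, h5, fun z h7 h8 => h6 z ⟨⟨z.2, h7⟩, h8⟩⟩
  choose g g1 g2 using h4
  refine ⟨g, fun z _ => ?_⟩
  by_cases hz : ∀ᶠ n in atTop, z.1 ∉ ⋃ m ≥ k n, (W n m)ᶜ
  · refine hz.mono fun n hn => (w2 n _).le ?_
    by_contra h5
    exact hn (mem_biUnion (g1 n) h5)
  · exact (eventually_ge_atTop (D z)).mono fun n hn => g2 n z hz hn

theorem Si.ht {Z : Set ℝ} (h : Si Z) : Ht (Bo Z) Set.univ := by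
  intro u u1 u2
  have h1 : ∀ m, ∃ W, MeasurableSet W ∧ Subtype.val ⁻¹' W = u m := fun m => by
    have : @MeasurableSet Z (borel Z) (u m) := u1 m
    rwa [← BorelSpace.measurable_eq] at this
  choose W w1 w2 using h1
  let μ := (volume : Measure ℝ).toFinite
  let R : ℝ → ℝ → Prop := fun x y => ∀ᶠ m in atTop, x ∈ W m → y ∈ W m
  have r1 : MeasurableSet {z : ℝ × ℝ | R z.1 z.2} := by
    simp only [R, eventually_atTop]
    measurability
  have r2 : ∀ x ∈ Z, ∀ y ∈ Z, R x y ∨ R y x := fun x hx y hy => by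
    simpa only [← w2, mem_preimage] using u2.2 ⟨x, hx⟩ ⟨y, hy⟩
  have r3 : ∀ {x y z}, R x y → R y z → R x z := fun h h' =>
    (h.and h').mono fun _ h h' => h.2 (h.1 h')
  suffices ∃ D ⊆ Z, D.Countable ∧ ∀ y ∈ Z, ∃ d ∈ D, R d y by
    obtain ⟨D, d1, d2, d3⟩ := this
    obtain ⟨a, a1, a2⟩ := u2.pi (d2.preimage Subtype.val_injective)
    refine ⟨a, a1, fun x _ => a2 x ?_⟩
    obtain ⟨d, d4, d5⟩ := d3 x x.2
    exact ⟨⟨d, d1 d4⟩, d4, by simpa only [← w2, mem_preimage] using d5⟩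
  by_contra hc
  push Not at hc
  have h2 : ∀ q : ℚ, ∃ D ⊆ Z, D.Finite ∧ ((∃ y ∈ Z, (Real.toNNReal q : ENNReal) < μ {x | R y x}) →
      ∃ y ∈ D, (Real.toNNReal q : ENNReal) < μ {x | R y x}) := fun q => by
    by_cases h3 : ∃ y ∈ Z, (Real.toNNReal q : ENNReal) < μ {x | R y x}
    · obtain ⟨y, h4, h5⟩ := h3
      exact ⟨{y}, by simpa, finite_singleton _, fun _ => ⟨y, rfl, h5⟩⟩
    · exact ⟨∅, empty_subset _, finite_empty, fun h => (h3 h).elim⟩
  choose D d1 d2 d3 using h2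
  obtain ⟨y0, y1, y2⟩ := hc (⋃ q, D q) (iUnion_subset d1) (countable_iUnion fun q => (d2 q).countable)
  have m1 : ∀ y, MeasurableSet {x | R y x} := fun y => measurable_prodMk_left r1
  let S : ℝ → ℝ → Prop := fun y x => ¬ R y0 y → R y x → R y0 x
  have s1 : MeasurableSet {z : ℝ × ℝ | S z.1 z.2} := by
    simp only [S, R, eventually_atTop]
    measurability
  have s2 : ∀ y ∈ Z, ∀ᵐ x ∂μ, S y x := fun y hy => by
    by_cases h3 : R y0 y
    · simp [S, h3]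
    have h4 : {x | R y0 x} ⊆ {x | R y x} := fun x => r3 ((r2 y hy y0 y1).resolve_right h3)
    have h5 : μ {x | R y x} ≤ μ {x | R y0 x} := by
      by_contra h5
      obtain ⟨q, -, q1, q2⟩ := ENNReal.lt_iff_exists_rat_btwn.1 (not_le.1 h5)
      obtain ⟨d, d4, d5⟩ := d3 q ⟨y, hy, q2⟩
      exact (q1.trans d5).not_ge (measure_mono fun x => r3 ((r2 y0 y1 d (d1 q d4)).resolve_right
        (y2 d (mem_iUnion.2 ⟨q, d4⟩))))
    have := ae_eq_of_subset_of_measure_ge h4 h5 (m1 y0).nullMeasurableSet (measure_ne_top _ _)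
    exact this.mono fun x hx _ h6 => hx.ge h6
  have s3 := h.ct ((Measure.ae_ae_comm s1).1 (h.ae (p := fun y => ∀ᵐ x ∂μ, S y x)
    (measurable_measure_prodMk_left (ν := μ) s1.compl (measurableSet_singleton 0)) s2))
  obtain ⟨x, x1, x2⟩ := hc _ (insert_subset y1 (sep_subset _ _)) (s3.insert y0)
  have x3 : ∀ᵐ y ∂μ, S y x := by
    by_contra h3
    exact x2 x (Or.inr ⟨x1, h3⟩) (Eventually.of_forall fun _ => id)
  obtain ⟨z, z1, z2⟩ := hc _ (insert_subset y1 (sep_subset _ _))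
    ((h.ct (x3.and (s2 x x1))).insert y0)
  have z3 : S z x ∧ S x z := by
    by_contra h3
    exact z2 z (Or.inr ⟨z1, h3⟩) (Eventually.of_forall fun _ => id)
  have h3 := x2 y0 (Or.inl rfl)
  have h4 := z2 y0 (Or.inl rfl)
  exact (r2 x x1 z z1).elim (fun h => h4 (z3.2 h3 h)) fun h => h3 (z3.1 h4 h)

theorem spl {W : Type} {𝒪 : Set (Set W)} {𝒜 : Set (Set (Set W))} (h : Cho 𝒜 (Ga 𝒪)) :
    Split 𝒜 (Ta 𝒪) := by
  intro 𝒰 h𝒰
  obtain ⟨𝒱, v1, v2⟩ := h 𝒰 h𝒰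
  let u : ℕ → Set W := fun m => v2.2.1.natEmbedding _ m
  have u1 : Function.Injective u := Subtype.val_injective.comp (v2.2.1.natEmbedding _).injective
  have u2 : ∀ m, u m ∈ 𝒱 := fun _ => Subtype.prop _
  have u3 : ∀ a : ℕ → ℕ, (∀ n, n ≤ a n) → (range fun n => u (a n)) ∈ Ta 𝒪 := fun a ha =>
    ga_ta (ga_of (fun n => v2.1.1 (u2 _)) (fun n h => v2.1.2.2 (h ▸ u2 _)) fun z =>
      (tend ha).eventually ((evof u1 u2 (v2.2.2 z)).mono fun _ => not_not.1))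
  refine ⟨range fun n => u (2 * n), 𝒰 \ range fun n => u (2 * n), union_diff_cancel
    (range_subset_iff.2 fun n => v1 (u2 _)), disjoint_sdiff_right,
    ⟨_, subset_rfl, u3 _ fun n => by omega⟩, _, range_subset_iff.2 fun n => ⟨v1 (u2 _), ?_⟩,
    u3 (fun n => 2 * n + 1) fun n => by omega⟩
  rintro ⟨m, hm⟩
  have := u1 hm
  omega

theorem opc (n : ℕ) : IsOpen {t : C | t n = true} :=
  (isOpen_discrete {true}).preimage (continuous_apply (A := fun _ : ℕ => Bool) n)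

section
variable {W : Type} [TopologicalSpace W] {e : C → ℝ} {T : Set C} {δ : W → ℝ}

def O (e : C → ℝ) (δ : W → ℝ) (D : C → Prop) : Set W := {w | ∀ t, δ w = e t → D t}

theorem opO (e1 : Continuous e) (e2 : Function.Injective e) (d1 : Continuous δ) {D : C → Prop}
    (hD : IsOpen {t | D t}) : IsOpen (O e δ D) := by
  have := (((e1.isClosedEmbedding e2).isClosedMap _ hD.isClosed_compl).preimage d1).isOpen_compl
  convert this
  ext w
  simp [O, eq_comm, imp_iff_not_or, or_comm]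

omit [TopologicalSpace W] in
theorem memO (e2 : Function.Injective e) {w : W} {t : C} (h : δ w = e t) {D : C → Prop} :
    w ∈ O e δ D ↔ D t := ⟨fun h1 => h1 t h, fun h1 _ h2 => e2 (h.symm.trans h2) ▸ h1⟩

theorem nsp (e1 : Continuous e) (e2 : Function.Injective e) (d1 : Continuous δ) (hT : Tw T)
    (d2 : ∀ t, t ∈ T ↔ ∃ w, δ w = e t) : ¬ Split (Ta (Op W)) (Ta (Op W)) := by
  intro h
  let u : ℕ → Set W := fun n => O e δ fun t => t n = true
  obtain ⟨t0, h0, -⟩ := hT.sp id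
  have k1 : ∀ n m, ∃ w, w ∉ u m ∧ (n ≠ m → w ∈ u n) := fun n m => by
    obtain ⟨w, hw⟩ := (d2 _).1 (hT.md t0 h0 (show (fun i => if i = m then false else
      if i = n then true else t0 i) ∈ _ from ⟨max n m + 1, fun i hi => by
        dsimp only
        rw [if_neg (by omega), if_neg (by omega)]⟩))
    exact ⟨w, by simp [u, memO e2 hw], fun h => by simp [u, memO e2 hw, h]⟩
  have k2 : ∀ w, (∃ t ∈ T, ∀ n, w ∈ u n ↔ t n = true) ∨ ∀ n, w ∈ u n := fun w => by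
    by_cases h : ∃ t, δ w = e t
    · obtain ⟨t, ht⟩ := h
      exact Or.inl ⟨t, (d2 t).2 ⟨w, ht⟩, fun n => memO e2 ht⟩
    · exact Or.inr fun n t ht => (h ⟨t, ht⟩).elim
  refine (h (range u) (ta_of (fun n m h => by
      by_contra h1
      obtain ⟨w, h2, h3⟩ := k1 n m
      exact h2 (h ▸ h3 h1))
    (fun n => opO e1 e2 d1 (opc n))
    (fun n h => by
      obtain ⟨w, h2, -⟩ := k1 n n
      exact h2 (h.ge trivial)) ⟨fun w => ?_, fun x y => ?_⟩)).elim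
    fun 𝒱 ⟨𝒲, h1, h2, ⟨𝒱', h3, h4⟩, 𝒲', h5, h6⟩ => ?_
  rotate_right
  · obtain ⟨t, ht, h7⟩ := hT.ul {n | u n ∈ 𝒱}
    obtain ⟨w, hw⟩ := (d2 t).1 ht
    rcases h7 with h7 | h7
    · obtain ⟨U, u1, u2⟩ := (h6.2.1 w).nonempty
      obtain ⟨n, rfl⟩ := h1.le (Or.inr (h5 u1))
      exact disjoint_left.1 h2 (h7 n ((memO e2 hw).1 u2)) (h5 u1)
    · obtain ⟨U, u1, u2⟩ := (h4.2.1 w).nonempty
      obtain ⟨n, rfl⟩ := h1.le (Or.inl (h3 u1))
      exact h7 n ((memO e2 hw).1 u2) (h3 u1)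
  · rcases k2 w with ⟨t, h1, h2⟩ | h1
    · simpa only [h2, frequently_atTop] using hT.inf t h1
    · exact Frequently.of_forall h1
  · rcases k2 x with ⟨s, h1, h2⟩ | h1
    · rcases k2 y with ⟨t, h3, h4⟩ | h3
      · simpa only [h2, h4] using hT.ch s h1 t h3
      · exact Or.inl (Eventually.of_forall fun n _ => h3 n)
    · exact Or.inr (Eventually.of_forall fun n _ => h1 n)

theorem gam (e1 : Continuous e) (e2 : Function.Injective e) (d1 : Continuous δ) (hT : Tw T)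
    (d2 : ∀ t, t ∈ T ↔ ∃ w, δ w = e t) : ∃ V : ℕ → ℕ → Set W, (∀ n k, IsOpen (V n k)) ∧
      (∀ n, Ig (V n)) ∧ (∀ n, Monotone (V n)) ∧ ∀ g : ℕ → ℕ, ∃ w, ∀ n, w ∉ V n (g n) := by
  refine ⟨fun n k => O e δ fun t => ∃ i j, n ≤ i ∧ i < j ∧ j < k ∧ t i = true ∧ t j = true,
    fun n k => opO e1 e2 d1 ?_, fun n w => ?_, fun n k l h w hw t ht => ?_, fun g => ?_⟩
  · simp only [ofPred_exists, ofPred_and]
    exact isOpen_iUnion fun i => isOpen_iUnion fun j => isOpen_const.inter (isOpen_const.inter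
      (isOpen_const.inter ((opc i).inter (opc j))))
  · by_cases h : ∃ t, δ w = e t
    · obtain ⟨t, ht⟩ := h
      obtain ⟨i, h1, h2⟩ := hT.inf t ((d2 t).2 ⟨w, ht⟩) n
      obtain ⟨j, h3, h4⟩ := hT.inf t ((d2 t).2 ⟨w, ht⟩) (i + 1)
      exact (eventually_gt_atTop j).mono fun k hk => (memO e2 ht).2 ⟨i, j, h1, h3, hk, h2, h4⟩
    · exact Eventually.of_forall fun n t ht => (h ⟨t, ht⟩).elim
  · obtain ⟨i, j, a, b, c, d⟩ := hw t ht
    exact ⟨i, j, a, b, c.trans_le h, d⟩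
  · obtain ⟨t, ht, h⟩ := hT.sp fun i => (Finset.range (i + 1)).sup g
    obtain ⟨w, hw⟩ := (d2 t).1 ht
    refine ⟨w, fun n hn => ?_⟩
    obtain ⟨i, j, a, b, c, d, d'⟩ := (memO e2 hw).1 hn
    exact c.not_ge ((Finset.le_sup (f := g) (Finset.mem_range.2 (Nat.lt_succ_of_le a))).trans
      (h i j b d d'))

omit [TopologicalSpace W] in
theorem bnd {Y : Type} {V : ℕ → Set W} (hV : Monotone V) {ℱ : Set Y} (hF : ℱ.Finite)
    (p : Y → Set W) (h : ∀ U ∈ ℱ, ∃ j, p U ⊆ V j) : ∃ j, ∀ U ∈ ℱ, p U ⊆ V j := by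
  choose! ι hι using h
  obtain ⟨j, hj⟩ := (hF.image ι).bddAbove
  exact ⟨j, fun U hU => (hι U hU).trans (hV (hj ⟨U, hU, rfl⟩))⟩

theorem nmg (e1 : Continuous e) (e2 : Function.Injective e) (d1 : Continuous δ) (hT : Tw T)
    (d2 : ∀ t, t ∈ T ↔ ∃ w, δ w = e t) : ¬ Sfin (Ga (Op W)) (Cov (Op W)) := by
  intro h
  obtain ⟨V, v1, v2, v3, v4⟩ := gam e1 e2 d1 hT d2
  obtain ⟨ℱ, f1, -, f2, -⟩ := h (fun n => range (V n)) fun n => ga_of (v1 n) (fun k h => by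
    obtain ⟨w, hw⟩ := v4 fun _ => k
    exact hw n (h.ge trivial)) (v2 n)
  choose g hg using fun n => bnd (v3 n) (f1 n).1 id fun U hU => ((f1 n).2 hU).imp fun _ h => h.ge
  obtain ⟨z, hz⟩ := v4 g
  obtain ⟨U, u1, u2⟩ := f2.ge (mem_univ z)
  obtain ⟨n, hn⟩ := mem_iUnion.1 u1
  exact hz n (hg n U hn u2)

end

theorem key (ch : continuum = (aleph 1 : Cardinal.{0})) : ∃ Z : Set ℝ, Z.Nonempty ∧
    Gg (Bo Z) Set.univ ∧ Ht (Bo Z) Set.univ ∧ ¬ S1 (Cov (Op Z)) (Cov (Op Z)) ∧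
    ¬ Sfin (Om (Op Z)) (Om (Op Z)) ∧ ∀ (W : Type) [TopologicalSpace W] (p q : W → Z),
      Continuous p → Continuous q → (∀ x y, ∃ w, p w = x ∧ q w = y) →
      ¬ Split (Ta (Op W)) (Ta (Op W)) ∧ ¬ Sfin (Ga (Op W)) (Cov (Op W)) := by
  obtain ⟨T, hT⟩ := tower ch
  obtain ⟨e, e1, e2, e3, e4⟩ := emb
  obtain ⟨t0, h0, -⟩ := hT.sp id
  obtain ⟨Z, z1, z2⟩ := sier ch e2 e3 e4 ⟨t0, h0⟩
  have k1 : ∀ (W : Type) (p q : W → Z), (∀ x y, ∃ w, p w = x ∧ q w = y) →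
      ∀ t, t ∈ T ↔ ∃ w, (q w).1 - (p w).1 = e t := fun W p q h t => by
    rw [z2]
    refine ⟨fun ⟨x, hx, y, hy, h1⟩ => ?_, fun ⟨w, hw⟩ => ⟨_, (p w).2, _, (q w).2, hw⟩⟩
    obtain ⟨w, h2, h3⟩ := h ⟨x, hx⟩ ⟨y, hy⟩
    exact ⟨w, by rwa [h2, h3]⟩
  have k2 : ∀ x : ℕ → ℝ, ∃ z ∈ Z, ∀ n, z ∉ Metric.ball (x n) (2⁻¹ ^ n) := fun x => by
    by_contra h
    push Not at h
    have h1 := z1.2 (⋃ n, Metric.ball (x n) (2⁻¹ ^ n))ᶜ (by measurability)
      (countable_empty.mono fun z hz => hz.1 (mem_iUnion.2 (h z hz.2)))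
    have h2 := measure_univ_le_add_compl (μ := volume) (⋃ n, Metric.ball (x n) (2⁻¹ ^ n))
    rw [h1, add_zero, Real.volume_univ, top_le_iff] at h2
    refine ((measure_iUnion_le _).trans_lt ?_).ne h2
    simp only [Real.volume_ball]
    exact (((summable_geometric_of_lt_one (by norm_num) (by norm_num)).mul_left
      2).tsum_ofReal_ne_top).lt_top
  refine ⟨Z, (k2 0).imp fun _ h => h.1, z1.gg, z1.ht, fun h => ?_, fun h => ?_,
    fun W _ p q p1 q1 h => ⟨nsp e1 e2 (by fun_prop) hT (k1 W p q h),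
      nmg e1 e2 (by fun_prop) hT (k1 W p q h)⟩⟩
  · obtain ⟨U, h1, -, h2, -⟩ := h
      (fun n => range fun x : ℝ => Subtype.val ⁻¹' Metric.ball x (2⁻¹ ^ n)) fun n =>
        ⟨range_subset_iff.2 fun x => Metric.isOpen_ball.preimage continuous_subtype_val,
          eq_univ_of_forall fun z => ⟨_, ⟨z, rfl⟩, Metric.mem_ball_self (by positivity)⟩,
          fun ⟨x, hx⟩ => by
            obtain ⟨z, h1, h2⟩ := k2 fun _ => x
            exact h2 n (hx.ge (mem_univ (⟨z, h1⟩ : Z)))⟩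
    choose x hx using h1
    obtain ⟨z, h3, h4⟩ := k2 x
    obtain ⟨_, ⟨n, rfl⟩, h5⟩ := h2.ge (mem_univ (⟨z, h3⟩ : Z))
    exact h4 n ((hx n).ge h5)
  · obtain ⟨V, v1, v2, v3, v4⟩ := gam (W := Z × Z) e1 e2 (by fun_prop) hT
      (k1 _ Prod.fst Prod.snd fun x y => ⟨(x, y), rfl, rfl⟩)
    have h1 : ∀ n (F : Set Z), F.Finite →
        ∃ U ∈ {U | IsOpen U ∧ ∃ k, U ×ˢ U ⊆ V n k}, F ⊆ U := fun n F hF => by
      obtain ⟨k, hk⟩ := ((eventually_all_finite (hF.prod hF)).2 fun z _ => v2 n z).exists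
      obtain ⟨a, b, a1, b1, a2, b2, h2⟩ :=
        generalized_tube_lemma hF.isCompact hF.isCompact (v1 n k) hk
      exact ⟨a ∩ b, ⟨a1.inter b1, k, (prod_mono inter_subset_left inter_subset_right).trans h2⟩,
        subset_inter a2 b2⟩
    obtain ⟨ℱ, f1, -, f2⟩ := h (fun n => {U | IsOpen U ∧ ∃ k, U ×ˢ U ⊆ V n k}) fun n =>
      ⟨⟨fun _ h => h.1, eq_univ_of_forall fun z => by
        obtain ⟨U, u1, u2⟩ := h1 n {z} (finite_singleton _)
        exact ⟨U, u1, u2 rfl⟩, fun ⟨_, k, hk⟩ => by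
          obtain ⟨w, hw⟩ := v4 fun _ => k
          exact hw n (hk ⟨trivial, trivial⟩)⟩, h1 n⟩
    choose g hg using fun n => bnd (v3 n) (f1 n).1 (fun U => U ×ˢ U) fun U hU => ((f1 n).2 hU).2
    obtain ⟨z, hz⟩ := v4 g
    obtain ⟨U, u1, u2⟩ := f2 {z.1, z.2} (toFinite _)
    obtain ⟨n, hn⟩ := mem_iUnion.1 u1
    exact hz n (hg n U hn ⟨u2 (Or.inl rfl), u2 (Or.inr rfl)⟩)

theorem opbo {Z : Type} [TopologicalSpace Z] : Op Z ⊆ Bo Z := fun _ h =>
  MeasurableSpace.measurableSet_generateFrom h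

theorem key' (ch : continuum = (aleph 1 : Cardinal.{0})) : ∃ Z : Set ℝ, Z.Nonempty ∧
    S1 (Ta (Op Z)) (Ga (Op Z)) ∧ ¬ S1 (Cov (Op Z)) (Cov (Op Z)) ∧
    ¬ Sfin (Om (Op Z)) (Om (Op Z)) ∧ ∀ (W : Type) [TopologicalSpace W] (p q : W → Z),
      Continuous p → Continuous q → (∀ x y, ∃ w, p w = x ∧ q w = y) →
      ¬ Split (Ta (Op W)) (Ta (Op W)) ∧ ¬ Sfin (Ga (Op W)) (Cov (Op W)) := by
  obtain ⟨Z, h1, h2, h3, h4⟩ := key ch
  have := h1.to_subtype
  exact ⟨Z, h1, fun 𝒰 h => ((sel_it h2 h3 (fun n => (h n).1.1.trans opbo)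
    fun n => ta_op (h n)).ga fun n => (h n).1).imp fun _ h => ⟨h.1, h.2.1⟩, h4⟩

theorem cho {Z : Type} {𝒜 ℬ : Set (Set (Set Z))} (h : S1 𝒜 ℬ) : Cho 𝒜 ℬ := fun 𝒰 h𝒰 => by
  obtain ⟨U, h1, h2⟩ := h (fun _ => 𝒰) fun _ => h𝒰
  exact ⟨_, range_subset_iff.2 h1, h2⟩

end Pool.Agent.H.MP_f722f0_gt
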